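import Mathlib
import Pool.Agent.Helper945.PDef
import Pool.Agent.Helper945.InfLow
import Pool.Agent.Helper945.ExP

set_option autoImplicit false

open Filter Topology MeasureTheory
open scoped NNReal

namespace Pool.Agent.Results.MP_5fed26_pr.InfFormula

open Pool.Agent.Helper945.PDef

/-- For every `M ∈ (0,1]` the infimum `I(M)`, over all standard p-functions `p` with `p 1 = M`,
of the infimum `m(M;p)` of `p` on `[0,1]` is `max 0 (1 + log M)`. -/
theorem result (M : ℝ) (hM0 : 0 < M) (hM1 : M ≤ 1) :
    IsGLB {x : ℝ | ∃ p : ℝ≥0 → ℝ, IsStd p ∧ p 1 = M ∧ IsGLB (p '' Set.Icc 0 1) x}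
      (max 0 (1 + Real.log M)) := by
  constructor
  · rintro x ⟨p, hp, hp1, hx⟩
    refine hx.2 ?_
    rintro _ ⟨t, ht, rfl⟩
    refine max_le (hp.1.2.1 t).1 ?_
    rw [← hp1]
    exact Pool.Agent.Helper945.InfLow.log_le hp (by rw [hp1]; exact hM0) t ht.2
  · intro b hb
    -- any value of any admissible `p` bounds `b`
    have key : ∀ p : ℝ≥0 → ℝ, IsStd p → p 1 = M → ∀ t ≤ (1 : ℝ≥0), b ≤ p t := by
      intro p hp hp1 t ht
      have hne : (p '' Set.Icc 0 1).Nonempty := ⟨p 0, 0, ⟨le_rfl, zero_le_one⟩, rfl⟩
      have hbd : BddBelow (p '' Set.Icc 0 1) := ⟨0, by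
        rintro _ ⟨s, -, rfl⟩
        exact (hp.1.2.1 s).1⟩
      have hglb := isGLB_csInf hne hbd
      exact (hb ⟨p, hp, hp1, hglb⟩).trans (hglb.1 ⟨t, ⟨bot_le, ht⟩, rfl⟩)
    have key2 : ∀ lam : ℝ, 0 < lam → Real.exp (-lam) ≤ M →
        M ≤ Real.exp (-(1 - Real.exp (-lam))) → b ≤ Real.exp (-lam) := by
      intro lam hl h1 h2
      obtain ⟨p, hp, hp1, t, ht, hpt⟩ := Pool.Agent.Helper945.ExP.exists_std hl h1 h2
      rw [← hpt]
      exact key p hp hp1 t ht
    rcases eq_or_lt_of_le hM1 with rfl | hM1
    · have := key _ Pool.Agent.Helper945.ExP.isStd_one rfl 0 (zero_le_one)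
      rw [Real.log_one, add_zero]
      exact this.trans (le_max_right _ _)
    rcases le_or_gt M (Real.exp (-1)) with hM | hM
    · refine le_trans ?_ (le_max_left _ _)
      by_contra hcon
      push Not at hcon
      set lam : ℝ := max (-Real.log M) (-Real.log (b / 2)) with hlam
      have hlogM : Real.log M < 0 := Real.log_neg hM0 hM1
      have hl : 0 < lam := lt_of_lt_of_le (by linarith) (le_max_left _ _)
      have h1 : Real.exp (-lam) ≤ M := by
        rw [← Real.le_log_iff_exp_le hM0]
        have : -Real.log M ≤ lam := le_max_left _ _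
        linarith
      have h2 : Real.exp (-lam) ≤ b / 2 := by
        rw [← Real.le_log_iff_exp_le (by linarith)]
        have : -Real.log (b / 2) ≤ lam := le_max_right _ _
        linarith
      have h3 := key2 lam hl h1 (hM.trans (by
        rw [Real.exp_le_exp]
        have := Real.exp_pos (-lam)
        linarith))
      linarith
    · refine le_trans ?_ (le_max_right _ _)
      have hlog1 : -1 < Real.log M := by
        rw [Real.lt_log_iff_exp_lt hM0]; exact hM
      have hpos : 0 < 1 + Real.log M := by linarith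
      have hlogM : Real.log M < 0 := Real.log_neg hM0 hM1
      have hlt : Real.log (1 + Real.log M) < 0 := Real.log_neg hpos (by linarith)
      have hexp : Real.exp (-(-Real.log (1 + Real.log M))) = 1 + Real.log M := by
        rw [neg_neg, Real.exp_log hpos]
      have h1 := key2 (-Real.log (1 + Real.log M)) (by linarith) (by
        rw [hexp]
        have := Real.log_le_sub_one_of_pos hM0
        linarith) (by
        rw [hexp]
        have : -(1 - (1 + Real.log M)) = Real.log M := by ring
        rw [this, Real.exp_log hM0])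
      rwa [hexp] at h1

end Pool.Agent.Results.MP_5fed26_pr.InfFormula
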